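import Mathlib

set_option autoImplicit false

namespace Pool.Agent.Results.MP_17c227_co.ConnectedCounterexample

open Matrix

/-- The adjacency eigenvalues of `G` in non-increasing order: for `0 ≤ k < n` the value
`eig G k` is the `(k+1)`-st largest adjacency eigenvalue, counted with multiplicity
(and it is the junk value `0` for `k ≥ n`). -/
noncomputable def eig {n : ℕ} (G : SimpleGraph (Fin n)) [DecidableRel G.Adj] (k : ℕ) : ℝ :=
  if h : k < Fintype.card (Fin n) then
    (Matrix.IsHermitian.eigenvalues₀ (A := G.adjMatrix ℝ)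
      (by
        rw [Matrix.IsHermitian, Matrix.conjTranspose_eq_transpose_of_trivial]
        exact G.transpose_adjMatrix)) ⟨k, h⟩
  else 0

/-- `λ_ℓ` with `ℓ = ⌈(n+1)/2⌉`. -/
noncomputable def lowerMedian {n : ℕ} (G : SimpleGraph (Fin n)) [DecidableRel G.Adj] : ℝ :=
  eig G (⌈((n : ℚ) + 1) / 2⌉₊ - 1)

/-- The average degree `2|E|/n`. -/
noncomputable def avgDegree {n : ℕ} (G : SimpleGraph (Fin n)) [DecidableRel G.Adj] : ℝ :=
  2 * (G.edgeFinset.card : ℝ) / n

/-- Sixteen roots of the lattice `E₈`, in coordinates multiplied by two. -/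
def w : Fin 16 → Fin 8 → ℤ :=
  ![![0, 0, 2, 0, 0, 0, -2, 0],
    ![0, 0, 2, 0, 0, 0, 0, 2],
    ![1, 1, 1, 1, -1, 1, 1, -1],
    ![1, -1, 1, 1, -1, 1, 1, 1],
    ![1, -1, 1, 1, -1, -1, 1, -1],
    ![2, 0, 0, -2, 0, 0, 0, 0],
    ![0, -2, 0, 0, -2, 0, 0, 0],
    ![2, 0, 0, 0, 0, 0, -2, 0],
    ![0, 0, 0, -2, -2, 0, 0, 0],
    ![2, 0, 0, 0, 0, 2, 0, 0],
    ![1, 1, 1, 1, -1, -1, 1, 1],
    ![0, 2, 0, 0, -2, 0, 0, 0],
    ![0, 0, 2, -2, 0, 0, 0, 0],
    ![0, 0, 2, 0, 0, 0, 0, -2],
    ![2, 0, 0, 0, 0, -2, 0, 0],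
    ![0, 0, 0, 0, -2, 0, -2, 0]]

/-- The Gram matrix of the sixteen vectors. -/
def gram (i j : Fin 16) : ℤ := w i 0 * w j 0 + w i 1 * w j 1 + w i 2 * w j 2 + w i 3 * w j 3
  + w i 4 * w j 4 + w i 5 * w j 5 + w i 6 * w j 6 + w i 7 * w j 7

/-- The graph: two roots are adjacent when they are different and have inner product `1`. -/
def H : SimpleGraph (Fin 16) where
  Adj i j := i ≠ j ∧ gram i j = 4
  symm := ⟨by
    intro i j h
    refine ⟨h.1.symm, ?_⟩
    rw [← h.2]
    simp only [gram]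
    ring⟩
  loopless := ⟨fun i h => h.1 rfl⟩

instance : DecidableRel H.Adj := fun i j => inferInstanceAs (Decidable (i ≠ j ∧ gram i j = 4))

lemma gram_eq : ∀ i j : Fin 16,
    gram i j = 4 * (if H.Adj i j then 1 else 0) + 8 * (if i = j then 1 else 0) := by
  decide +kernel

lemma H_edges : H.edgeFinset.card = 39 := by
  decide +kernel

/-- Parent function of a spanning tree of depth two rooted at `0`. -/
def par : Fin 16 → Fin 16 := ![0, 0, 13, 1, 13, 7, 15, 0, 12, 7, 1, 15, 0, 0, 7, 0]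

lemma par_adj : ∀ v, par v = v ∨ H.Adj v (par v) := by decide +kernel

lemma par_par : ∀ v, par (par v) = 0 := by decide +kernel

lemma reach_par (v : Fin 16) : H.Reachable v (par v) := by
  rcases par_adj v with h | h
  · rw [h]
  · exact h.reachable

lemma H_connected : H.Connected := by
  rw [SimpleGraph.connected_iff]
  refine ⟨fun u v => ?_, ⟨0⟩⟩
  have key : ∀ x, H.Reachable x 0 := fun x => by
    have := (reach_par x).trans (reach_par (par x))
    rwa [par_par] at this
  exact (key u).trans (key v).symm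

/-- The coordinate matrix of the roots. -/
noncomputable def W : Matrix (Fin 16) (Fin 8) ℝ := fun i k => (w i k : ℝ)

lemma gram_matrix : H.adjMatrix ℝ + (2 : ℝ) • (1 : Matrix (Fin 16) (Fin 16) ℝ)
    = W * ((1 / 4 : ℝ) • Wᵀ) := by
  ext i j
  have h := gram_eq i j
  have h' : (gram i j : ℝ) = 4 * (if H.Adj i j then 1 else 0) + 8 * (if i = j then 1 else 0) := by
    rw [h]; push_cast; rfl
  simp only [Matrix.add_apply, Matrix.smul_apply, Matrix.one_apply, SimpleGraph.adjMatrix_apply,
    Matrix.mul_apply, Matrix.transpose_apply, W, smul_eq_mul]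
  have h2 : ∑ x, (w i x : ℝ) * (1 / 4 * (w j x : ℝ)) = 1 / 4 * (gram i j : ℝ) := by
    simp only [gram, Fin.sum_univ_eight]
    push_cast
    ring
  rw [h2, h']
  ring

lemma rank_le : (H.adjMatrix ℝ + (2 : ℝ) • (1 : Matrix (Fin 16) (Fin 16) ℝ)).rank ≤ 8 := by
  rw [gram_matrix]
  calc (W * ((1 / 4 : ℝ) • Wᵀ)).rank ≤ W.rank := Matrix.rank_mul_le_left _ _
    _ ≤ Fintype.card (Fin 8) := Matrix.rank_le_card_width W
    _ = 8 := by simp

lemma rank_shift {n : ℕ} {A : Matrix (Fin n) (Fin n) ℝ} (hA : A.IsHermitian) (c : ℝ) :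
    (A + c • (1 : Matrix (Fin n) (Fin n) ℝ)).rank
      = Fintype.card {i // hA.eigenvalues i + c ≠ 0} := by
  have h1 : A + c • (1 : Matrix (Fin n) (Fin n) ℝ)
      = Unitary.conjStarAlgAut ℝ _ hA.eigenvectorUnitary
          (diagonal (fun i => hA.eigenvalues i + c)) := by
    have h2 : (diagonal (fun i => hA.eigenvalues i + c) : Matrix (Fin n) (Fin n) ℝ)
        = diagonal (RCLike.ofReal ∘ hA.eigenvalues) + c • (1 : Matrix (Fin n) (Fin n) ℝ) := by
      ext i j
      by_cases hij : i = j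
      · subst hij
        simp
      · simp [hij]
    rw [h2, map_add, ← hA.spectral_theorem, map_smul, map_one]
  rw [h1, Unitary.conjStarAlgAut_apply, ← Unitary.coe_star]
  simp [-isUnit_iff_ne_zero, -Unitary.coe_star, rank_diagonal]

lemma H_herm : (H.adjMatrix ℝ).IsHermitian := by
  rw [Matrix.IsHermitian, Matrix.conjTranspose_eq_transpose_of_trivial]
  exact H.transpose_adjMatrix

lemma count : (Finset.univ.filter (fun k : Fin (Fintype.card (Fin 16)) =>
    H_herm.eigenvalues₀ k + 2 ≠ 0)).card ≤ 8 := by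
  have h1 := rank_le
  rw [rank_shift H_herm 2, Fintype.card_subtype] at h1
  refine le_trans (le_of_eq ?_) h1
  refine Finset.card_bij
    (fun k _ => (Fintype.equivOfCardEq (Fintype.card_fin _) : Fin (Fintype.card (Fin 16)) ≃ Fin 16) k)
    ?_ ?_ ?_
  · intro k hk
    simp only [Finset.mem_filter, Finset.mem_univ, true_and] at hk ⊢
    simpa only [Matrix.IsHermitian.eigenvalues, Equiv.symm_apply_apply] using hk
  · intro a _ b _ hab
    exact (Equiv.injective _) hab
  · intro b hb
    simp only [Finset.mem_filter, Finset.mem_univ, true_and] at hb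
    refine ⟨(Fintype.equivOfCardEq (Fintype.card_fin _)).symm b, ?_, by simp⟩
    simp only [Finset.mem_filter, Finset.mem_univ, true_and]
    exact hb

lemma median_le : lowerMedian H ≤ -2 := by
  have hidx : ⌈(((16 : ℕ) : ℚ) + 1) / 2⌉₊ - 1 = 8 := by
    have : ⌈(((16 : ℕ) : ℚ) + 1) / 2⌉₊ = 9 := by
      rw [Nat.ceil_eq_iff (by norm_num)]
      norm_num
    rw [this]
  have hlt : 8 < Fintype.card (Fin 16) := by simp
  have hval : lowerMedian H = H_herm.eigenvalues₀ ⟨8, hlt⟩ := by
    unfold lowerMedian eig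
    rw [hidx, dif_pos hlt]
  rw [hval]
  by_contra hcon
  push Not at hcon
  have hsub : (Finset.univ.filter (fun k : Fin (Fintype.card (Fin 16)) => k.val ≤ 8))
      ⊆ Finset.univ.filter (fun k : Fin (Fintype.card (Fin 16)) =>
        H_herm.eigenvalues₀ k + 2 ≠ 0) := by
    intro k hk
    simp only [Finset.mem_filter, Finset.mem_univ, true_and] at hk ⊢
    have h := H_herm.eigenvalues₀_antitone (show k ≤ ⟨8, hlt⟩ from hk)
    have : (0 : ℝ) < H_herm.eigenvalues₀ k + 2 := by linarith
    exact this.ne'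
  have hcard : (Finset.univ.filter (fun k : Fin (Fintype.card (Fin 16)) => k.val ≤ 8)).card = 9 := by
    decide +kernel
  have := Finset.card_le_card hsub
  have := count
  omega

theorem result : ∀ d : ℝ, 39 / 8 ≤ d → d < 5 →
    ∃ (G : SimpleGraph (Fin 16)) (_ : DecidableRel G.Adj),
      G.Connected ∧ avgDegree G ≤ d ∧ √(d - 1) < |lowerMedian G| := by
  intro d hd1 hd2
  refine ⟨H, inferInstance, H_connected, ?_, ?_⟩
  · unfold avgDegree
    rw [H_edges]
    norm_num
    linarith
  · have h1 := median_le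
    have h2 : (2 : ℝ) ≤ |lowerMedian H| := by
      rw [abs_of_neg (by linarith)]
      linarith
    refine lt_of_lt_of_le ?_ h2
    rw [Real.sqrt_lt' (by norm_num)]
    linarith

end Pool.Agent.Results.MP_17c227_co.ConnectedCounterexample
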